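import Pool.Agent.H18ZM.Arch
import Pool.Agent.H18ZM.NonV
import Pool.Agent.TH900.OM.PB
import Pool.Agent.H18Z.Z

/-!
# Simultaneous measure for `ζ(7), ζ(9), ζ(11), ζ(13)`: assembly
-/

open Polynomial Pool.Agent.H337R2 Filter Topology

namespace Pool.Agent.H18ZM

open Pool.Agent.H18Z Pool.Agent.TH900.OM

noncomputable section

/-- the final numerical inequality, sharper than `Z_num` -/
lemma M_num (hR : ((LA + LB + LC + LU : ℚ) : ℝ) ≤ 228864 / 100) :
    JJ - (1250 * Real.log 50 - 1875) + 35 / 2 +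
      ((LA + LB + LC + LU : ℚ) : ℝ) < -(10.87 : ℝ) := by
  have h2 := Real.log_two_gt_d9
  have hJ := G5_JJ
  have h50 : 79 * Real.log 2 + 0.0096 ≤ 14 * Real.log 50 := by
    have h1 : 14 * Real.log (50 : ℝ) = 79 * Real.log 2 + Real.log (50 ^ 14 / 2 ^ 79) := by
      have h4 : Real.log ((50 : ℝ) ^ 14) = Real.log (2 ^ 79 * (50 ^ 14 / 2 ^ 79)) := by norm_num
      rw [Real.log_pow, Real.log_mul (by norm_num) (by norm_num), Real.log_pow] at h4
      push_cast at h4
      exact h4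
    have h3 : 1 - (50 ^ 14 / 2 ^ 79 : ℝ)⁻¹ ≤ Real.log (50 ^ 14 / 2 ^ 79) :=
      Real.one_sub_inv_le_log_of_pos (by norm_num)
    rw [h1]
    norm_num at h3 ⊢
    linarith
  linarith

/-- no good simultaneous approximation with a large denominator -/
theorem large_den : ∃ b0 : ℕ, 1 ≤ b0 ∧ ∀ (a : ℕ → ℤ) (q : ℕ), b0 ≤ q →
    ∃ i ∈ I9, ((q : ℝ) ^ 2229)⁻¹ < |zr (i + 4) - (a i : ℝ) / q| := by
  obtain ⟨K0, hK0, hE4⟩ := E4_padic
  obtain ⟨p0, hH6⟩ := nonvanish
  obtain ⟨C, hC, hnice⟩ := nice_of_close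
  have hF3 : ((LA + LB + LC + LU : ℚ) : ℝ) ≤ 228864 / 100 := by
    have h := (Rat.cast_le (K := ℝ)).2 F3_numeric
    refine h.trans (le_of_eq ?_)
    norm_num
  have hnum := M_num hF3
  have hε : (0 : ℝ) < 1 / 100 := by norm_num
  have ev1 := arch C hC (1 / 100) hε
  have ev2 := ev_of_tendsto F2_A (1 / 100) hε
  have ev3 := ev_of_tendsto F2_B (1 / 100) hε
  have ev4 := ev_of_tendsto F2_C (1 / 100) hε
  have ev5 := ev_of_tendsto F2_U (1 / 100) hε
  have ev6 := F4_small (1 / 100) hε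
  have ev7 := F5_fact
  have ev8 := F6_superfac (1 / 100) hε
  have ev9 : ∀ᶠ n : ℕ in atTop, K0 * (Real.log 4 * 13) ≤ 1 / 100 * n := by
    have := (tendsto_natCast_atTop_atTop (R := ℝ)).const_mul_atTop hε
    exact this.eventually_ge_atTop _
  obtain ⟨N1, hN1⟩ := eventually_atTop.1 ev1
  obtain ⟨N2, hN2⟩ := eventually_atTop.1 (ev2.and (ev3.and (ev4.and (ev5.and (ev6.and (ev7.and (ev8.and
    (ev9.and hnice))))))))
  obtain ⟨L0, hL01, hPB⟩ := prime_between 7 (by norm_num) (1000 / 431) 3.4631 (by norm_num) (by norm_num)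
  obtain ⟨b0, hb0⟩ := exists_nat_gt (Real.exp (L0 + 2 * (24 * N1 + N2 + p0 + 7200)))
  refine ⟨b0, ?_, fun a q hb => ?_⟩
  · have : (0 : ℝ) < b0 := (Real.exp_pos _).trans hb0
    have : 0 < b0 := by exact_mod_cast this
    omega
  by_contra hcon
  push Not at hcon
  have hbR : Real.exp (L0 + 2 * (24 * N1 + N2 + p0 + 7200)) < q := hb0.trans_le (by exact_mod_cast hb)
  have hqr : (0 : ℝ) < q := (Real.exp_pos _).trans hbR
  have hq0 : 0 < q := by exact_mod_cast hqr
  obtain ⟨L, hL⟩ : ∃ L : ℝ, L = Real.log q := ⟨_, rfl⟩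
  have hLbig : L0 + 2 * (24 * N1 + N2 + p0 + 7200) < L := by
    rw [hL]
    exact (Real.lt_log_iff_exp_lt hqr).2 hbR
  have hN1c : (0 : ℝ) ≤ N1 := Nat.cast_nonneg _
  have hN2c : (0 : ℝ) ≤ N2 := Nat.cast_nonneg _
  have hp0c : (0 : ℝ) ≤ p0 := Nat.cast_nonneg _
  obtain ⟨n, hnp, hn24, hnL, hnU, hnb⟩ := hPB L (by linarith) q hq0 hL.ge
  have hnbig : 24 * N1 + N2 + p0 + 7200 < n := by
    have : ((24 * N1 + N2 + p0 + 7200 : ℕ) : ℝ) < n := by
      push_cast
      linarith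
    exact_mod_cast this
  obtain ⟨N, hN⟩ : ∃ N, n = 24 * N + 1 := ⟨n / 24, by omega⟩
  have : Fact n.Prime := ⟨hnp⟩
  have hn0 : (0 : ℝ) < n := by exact_mod_cast hnp.pos
  -- the rational numbers
  set u : ℕ → ℚ := fun i => if i ∈ I9 then (a i : ℚ) / q else 0 with hu_def
  have hqq : (q : ℚ) ≠ 0 := by exact_mod_cast hq0.ne'
  have hu1 : ∀ i ∈ I9, u i = (a i : ℚ) / q := fun i hi => if_pos hi
  have hu : UInt q u := by
    refine ⟨hq0, fun i => ?_⟩
    by_cases hi : i ∈ I9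
    · refine ⟨a i, ?_⟩
      rw [hu1 i hi]
      field_simp
    · refine ⟨0, ?_⟩
      have h1 : u i = 0 := if_neg hi
      rw [h1]
      simp
  have hup : ∀ i, padicNorm n (u i) ≤ (n : ℚ) ^ (i + 3) := by
    intro i
    have hn1 : (1 : ℚ) ≤ n := by exact_mod_cast hnp.one_le
    by_cases hi : i ∈ I9
    · rw [hu1 i hi]
      refine (norm_frac_le 6 hq0 hnb (a i)).trans (pow_le_pow_right₀ hn1 ?_)
      simp only [I9, Finset.mem_insert, Finset.mem_singleton] at hi
      omega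
    · have h1 : u i = 0 := if_neg hi
      rw [h1, padicNorm.zero]
      positivity
  have hclose : ∀ i ∈ I9, |zr (i + 4) - (u i : ℝ)| ≤ Real.exp (-(643.4 * n)) := by
    intro i hi
    have h0 : ((u i : ℚ) : ℝ) = (a i : ℝ) / q := by
      rw [hu1 i hi]
      push_cast
      rfl
    rw [h0]
    refine (hcon i hi).trans ?_
    have h1 : ((q : ℝ) ^ 2229)⁻¹ = Real.exp (-(2229 * L)) := by
      rw [Real.exp_neg, hL, show 2229 * Real.log q = ((2229 : ℕ) : ℝ) * Real.log q by push_cast; rfl,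
        ← Real.log_pow, Real.exp_log (by positivity)]
    rw [h1]
    apply Real.exp_le_exp.2
    linarith
  have hDne : DET n u (25 * (n - 1)) ≠ 0 := hH6 n (by omega) hnp u hup
  obtain ⟨g2, g3, g4, g5, g6, g7, g8, g9, g10⟩ := hN2 n (by omega)
  have g1 := hN1 N (by omega) n hN u (g10 u hclose) hDne
  have hn7 : 7 ≤ n := by omega
  set D := DET n u (25 * (n - 1)) with hD
  set z : ℚ := (q : ℚ) ^ (25 * (n - 1)) * D with hz
  have hqr : (0 : ℝ) < q := by exact_mod_cast hq0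
  have hz0 : z ≠ 0 := mul_ne_zero (by positivity) hDne
  set S := (Finset.range (13 * n)).filter Nat.Prime with hS
  have hpf := Pool.Agent.H336R2.HD.A5_prod_formula z hz0 S (fun p hp => (Finset.mem_filter.1 hp).2) (fun p => Bf n p K0)
    (fun p hp => by
      rw [hS, Finset.mem_filter, Finset.mem_range] at hp
      exact norm_le_Bf n p K0 hn7 hp.2 q u hu (fun h1 h2 => hE4 n hn7 p hp.2 h1 h2 q u hu) (by omega) hp.1)
    (fun p hp hpS => by
      rw [hS, Finset.mem_filter, Finset.mem_range] at hpS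
      have h1 : 13 * n ≤ p := by
        by_contra h; exact hpS ⟨by omega, hp⟩
      have h2 := hE4 n hn7 p hp (by omega) (by nlinarith) q u hu
      rw [if_neg (by omega)] at h2
      have h3 : padicNorm p ((q : ℚ) ^ (25 * (n - 1)) * DET n u (25 * (n - 1))) ≤ 1 := by
        exact_mod_cast h2
      exact h3)
  have hprodpos : 0 < ∏ p ∈ S, Bf n p K0 :=
    Finset.prod_pos fun p hp => Bf_pos n p K0 (Finset.mem_filter.1 hp).2
  have hzabs : 0 < |(z : ℝ)| := abs_pos.2 (by exact_mod_cast hz0)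
  have hlog := Real.log_nonneg hpf
  rw [Real.log_mul hzabs.ne' hprodpos.ne', Real.log_prod (fun p hp => (Bf_pos n p K0 (Finset.mem_filter.1 hp).2).ne')] at hlog
  have hzlog : Real.log |(z : ℝ)| = ((25 * (n - 1) : ℕ) : ℝ) * Real.log q + Real.log |((D : ℚ) : ℝ)| := by
    rw [hz, Rat.cast_mul, Rat.cast_pow, Rat.cast_natCast]
    rw [abs_mul, Real.log_mul (by positivity) (abs_pos.2 (by exact_mod_cast hDne)).ne', abs_of_pos (by positivity), Real.log_pow]
  have hlq : 0 ≤ Real.log q := Real.log_nonneg (by exact_mod_cast hq0)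
  have hmq : ((25 * (n - 1) : ℕ) : ℝ) * Real.log q ≤ 25 * n * Real.log q := by
    apply mul_le_mul_of_nonneg_right _ hlq
    have : 25 * (n - 1) ≤ 25 * n := by omega
    exact_mod_cast this
  -- split of the sum
  rw [← Finset.sum_filter_add_sum_filter_not S (fun p => 20 * p ≤ n)] at hlog
  have hsmall : ∑ p ∈ S.filter (fun p => 20 * p ≤ n), Real.log (Bf n p K0) ≤
      25 * (n : ℝ) * (∑ p ∈ (Finset.range (n + 1)).filter (fun p : ℕ => p.Prime ∧ p ^ 2 ≤ 50 * n),
        300 * Real.log (50 * n + 1) +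
      ∑ p ∈ (Finset.range (n + 1)).filter (fun p : ℕ => p.Prime ∧ 20 * p ≤ n), 14 * Real.log p) +
      ∑ p ∈ (Finset.range (n + 1)).filter (fun p : ℕ => p.Prime ∧ 20 * p ≤ n), ∑ i ∈ Finset.range (25 * (n - 1)),
      Real.log ((padicNorm p (((2 * i - 1).factorial : ℕ) : ℚ) ^ 2 : ℚ) : ℝ) := by
    have e1 : S.filter (fun p => 20 * p ≤ n) = (Finset.range (n + 1)).filter (fun p : ℕ => p.Prime ∧ 20 * p ≤ n) := by
      ext p
      rw [hS]
      simp only [Finset.mem_filter, Finset.mem_range]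
      constructor
      · rintro ⟨⟨h1, h2⟩, h3⟩; exact ⟨by omega, h2, h3⟩
      · rintro ⟨h1, h2, h3⟩; exact ⟨⟨by omega, h2⟩, h3⟩
    rw [e1]
    calc _ ≤ ∑ p ∈ (Finset.range (n + 1)).filter (fun p : ℕ => p.Prime ∧ 20 * p ≤ n),
          (25 * (n : ℝ) * ((if p ^ 2 ≤ 50 * n then 300 * Real.log (50 * n + 1) else 0) + 14 * Real.log p) +
          ∑ i ∈ Finset.range (25 * (n - 1)), Real.log ((padicNorm p (((2 * i - 1).factorial : ℕ) : ℚ) ^ 2 : ℚ) : ℝ)) := by
          apply Finset.sum_le_sum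
          intro p hp
          rw [Finset.mem_filter] at hp
          exact log_Bf_small n p K0 hn7 hp.2.1 hp.2.2
      _ ≤ _ := by
          rw [Finset.sum_add_distrib, ← Finset.mul_sum, Finset.sum_add_distrib]
          apply add_le_add_left
          apply mul_le_mul_of_nonneg_left _ (by positivity)
          apply add_le_add_left
          rw [← Finset.sum_filter]
          apply Finset.sum_le_sum_of_subset_of_nonneg
          · intro p hp
            simp only [Finset.mem_filter, Finset.mem_range] at hp ⊢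
            exact ⟨hp.1.1, hp.1.2.1, hp.2⟩
          · intro p _ _
            have : 0 ≤ Real.log (50 * (n : ℝ) + 1) := Real.log_nonneg (by linarith)
            positivity
  have hlarge : ∑ p ∈ S.filter (fun p => ¬ 20 * p ≤ n), Real.log (Bf n p K0) ≤
      ∑ p ∈ PS (1 / 20) 2 n, EA n p * Real.log p + ∑ p ∈ PS 2 (17 / 2) n, EB n p * Real.log p +
      ∑ p ∈ PS (17 / 2) 13 n, EC n p * Real.log p + K0 * (Real.log 4 * (13 * n)) := by
    refine le_trans (le_of_eq ?_) (EW_split n hn7 K0 hK0)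
    apply Finset.sum_congr rfl
    intro p hp
    rw [hS, Finset.mem_filter, Finset.mem_filter] at hp
    exact log_Bf_large n p K0 hp.1.2 hp.2
  have hfin : 25 * (n : ℝ) * Real.log q + K0 * (Real.log 4 * (13 * n)) ≤ (10.775 + 1 / 100) * (n : ℝ) ^ 2 := by
    have h1 := mul_le_mul_of_nonneg_right g9 hn0.le
    have h2 : Real.log q ≤ 0.431 * n := by
      rw [← hL]
      linarith
    have h3 : 25 * (n : ℝ) * Real.log q ≤ 25 * n * (0.431 * n) := mul_le_mul_of_nonneg_left h2 (by positivity)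
    nlinarith
  have hn2 : (0 : ℝ) < (n : ℝ) ^ 2 := by positivity
  push_cast at hnum
  have htot : 0 ≤ (JJ - (1250 * Real.log 50 - 1875) + 35 / 2 +
      ((LA : ℝ) + LB + LC + LU) + 10.775 + 8 / 100) * (n : ℝ) ^ 2 := by
    linarith
  have hneg : (JJ - (1250 * Real.log 50 - 1875) + 35 / 2 +
      ((LA : ℝ) + LB + LC + LU) + 10.775 + 8 / 100) * (n : ℝ) ^ 2 < 0 := by
    apply mul_neg_of_neg_of_pos _ hn2
    linarith
  linarith


/-- simultaneous measure of `ζ(7), ζ(9), ζ(11), ζ(13)` -/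
theorem measure :
    ∃ c : ℝ, 0 < c ∧ ∀ (a : ℕ → ℤ) (q : ℕ), 0 < q → ∃ j ∈ ({7, 9, 11, 13} : Finset ℕ),
      c / (q : ℝ) ^ 2229 ≤ |zr j - (a j : ℝ) / q| := by
  obtain ⟨b0, hb0, h⟩ := large_den
  have hb0R : (0 : ℝ) < b0 := by exact_mod_cast hb0
  refine ⟨((b0 : ℝ) ^ 2229)⁻¹, by positivity, fun a q hq => ?_⟩
  have hqR : (0 : ℝ) < q := by exact_mod_cast hq
  obtain ⟨i, hi, h1⟩ := h (fun i => a (i + 4) * b0) (q * b0) (Nat.le_mul_of_pos_left b0 hq)
  refine ⟨i + 4, ?_, ?_⟩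
  · simp only [I9, Finset.mem_insert, Finset.mem_singleton] at hi ⊢
    omega
  · push_cast at h1
    rw [mul_div_mul_right _ _ hb0R.ne'] at h1
    refine le_trans (le_of_eq ?_) h1.le
    rw [mul_pow, mul_inv, div_eq_mul_inv]
    ring

end

end Pool.Agent.H18ZM
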